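import Pool.Agent.THA.Str

/-!
The finite argument of Theorem A.
-/

set_option autoImplicit false
set_option linter.unusedSectionVars false

namespace Pool.THA

open Finset

section comb

variable {X : Type} [Fintype X] [DecidableEq X] (k : X → X → Bool)

theorem cast_odd (n : ℕ) : Odd n ↔ ((n : ℕ) : ZMod 2) = 1 := by
  rw [← ZMod.natCast_eq_one_iff_odd]

theorem cast_even (n : ℕ) : Even n ↔ ((n : ℕ) : ZMod 2) = 0 := by
  rw [← ZMod.natCast_eq_zero_iff_even]

theorem ite_and_mul (p q : Prop) [Decidable p] [Decidable q] :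
    ((if p then 1 else 0) * (if q then 1 else 0) : ZMod 2) = if p ∧ q then 1 else 0 := by
  by_cases hp : p <;> by_cases hq : q <;> simp [hp, hq]

/-- The matrix step: `Xᵀ X = 1` gives `X Xᵀ = 1`. -/
theorem star (L2 : ∀ r u, r ≠ u →
      Odd (univ.filter (fun v => v ≠ r ∧ v ≠ u ∧ k v r = k v u)).card)
    (L3 : ∀ r u w, r ≠ u → r ≠ w → u ≠ w →
      Even (univ.filter (fun v => v ≠ r ∧ v ≠ u ∧ v ≠ w ∧ k v r = k v u ∧ k v r = k v w)).card)
    (r v w : X) (hrv : v ≠ r) (hrw : w ≠ r) (hvw : v ≠ w) :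
    Even (univ.filter (fun u => u ≠ r ∧ (v ≠ u ∧ k v r = k v u) ∧ (w ≠ u ∧ k w r = k w u))).card := by
  classical
  let M : Matrix {x // x ≠ r} {x // x ≠ r} (ZMod 2) :=
    fun v u => if (v : X) ≠ u ∧ k v r = k v u then 1 else 0
  have hsub : ∀ g : X → ZMod 2, ∑ v : {x // x ≠ r}, g v = ∑ v ∈ univ.filter (fun x => x ≠ r), g v := by
    intro g
    exact (Finset.sum_subtype (univ.filter (fun x => x ≠ r)) (by simp) g).symm
  have h1 : M.transpose * M = 1 := by
    ext u w
    rw [Matrix.mul_apply]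
    simp only [Matrix.transpose_apply]
    let gg : X → ZMod 2 := fun v : X =>
      if (v ≠ u ∧ k v r = k v u) ∧ (v ≠ w ∧ k v r = k v w) then (1 : ZMod 2) else 0
    have e : ∀ v : {x // x ≠ r}, M v u * M v w = gg v := by
      intro v
      simp only [M, gg]
      rw [ite_and_mul]
    refine (Finset.sum_congr rfl (fun v _ => e v)).trans ((hsub gg).trans ?_)
    simp only [gg]
    rw [← Finset.sum_filter, Finset.filter_filter, Finset.sum_const, nsmul_eq_mul, mul_one]
    by_cases huw : u = w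
    · subst huw
      rw [Matrix.one_apply_eq, ← cast_odd]
      have := L2 r u (Ne.symm u.2)
      have e2 : univ.filter (fun v : X => v ≠ r ∧ (v ≠ u ∧ k v r = k v u) ∧ (v ≠ u ∧ k v r = k v u)) =
          univ.filter (fun v => v ≠ r ∧ v ≠ u ∧ k v r = k v u) :=
        Finset.filter_congr fun v _ =>
          ⟨fun h => ⟨h.1, h.2.1.1, h.2.1.2⟩, fun h => ⟨h.1, ⟨h.2.1, h.2.2⟩, h.2.1, h.2.2⟩⟩
      rw [e2]; exact this
    · rw [Matrix.one_apply_ne huw, ← cast_even]
      have := L3 r u w (Ne.symm u.2) (Ne.symm w.2) (fun h => huw (Subtype.ext h))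
      have e2 : univ.filter (fun v : X => v ≠ r ∧ (v ≠ u ∧ k v r = k v u) ∧ (v ≠ w ∧ k v r = k v w)) =
          univ.filter (fun v => v ≠ r ∧ v ≠ u ∧ v ≠ w ∧ k v r = k v u ∧ k v r = k v w) :=
        Finset.filter_congr fun v _ =>
          ⟨fun h => ⟨h.1, h.2.1.1, h.2.2.1, h.2.1.2, h.2.2.2⟩,
            fun h => ⟨h.1, ⟨h.2.1, h.2.2.2.1⟩, h.2.2.1, h.2.2.2.2⟩⟩
      rw [e2]; exact this
  have h2 : M * M.transpose = 1 := mul_eq_one_comm.mp h1
  have h3 := congrFun (congrFun h2 ⟨v, hrv⟩) ⟨w, hrw⟩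
  rw [Matrix.one_apply_ne (fun h => hvw (congrArg Subtype.val h)), Matrix.mul_apply] at h3
  simp only [Matrix.transpose_apply] at h3
  let gg : X → ZMod 2 := fun u : X =>
    if (v ≠ u ∧ k v r = k v u) ∧ (w ≠ u ∧ k w r = k w u) then (1 : ZMod 2) else 0
  have e : ∀ u : {x // x ≠ r}, M ⟨v, hrv⟩ u * M ⟨w, hrw⟩ u = gg u := by
    intro u
    simp only [M, gg]
    rw [ite_and_mul]
  have h4 := (Finset.sum_congr rfl (fun u _ => e u)).symm.trans h3
  have h5 := (hsub gg).symm.trans h4
  simp only [gg] at h5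
  rw [← Finset.sum_filter, Finset.filter_filter, Finset.sum_const, nsmul_eq_mul, mul_one,
    ← cast_even] at h5
  exact h5

/-- Two classes meet in no or an odd number of letters. -/
theorem star' (L2 : ∀ r u, r ≠ u →
      Odd (univ.filter (fun v => v ≠ r ∧ v ≠ u ∧ k v r = k v u)).card)
    (L3 : ∀ r u w, r ≠ u → r ≠ w → u ≠ w →
      Even (univ.filter (fun v => v ≠ r ∧ v ≠ u ∧ v ≠ w ∧ k v r = k v u ∧ k v r = k v w)).card)
    (v w : X) (hvw : v ≠ w) (b b' : Bool) :
    (univ.filter (fun u => u ≠ v ∧ u ≠ w ∧ k v u = b ∧ k w u = b')).card = 0 ∨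
      Odd (univ.filter (fun u => u ≠ v ∧ u ≠ w ∧ k v u = b ∧ k w u = b')).card := by
  rcases (univ.filter (fun u => u ≠ v ∧ u ≠ w ∧ k v u = b ∧ k w u = b')).eq_empty_or_nonempty with
    h | ⟨r, hr⟩
  · left; rw [h]; rfl
  · right
    simp only [mem_filter, mem_univ, true_and] at hr
    obtain ⟨h1, h2, h3, h4⟩ := hr
    have h := star k L2 L3 r v w (Ne.symm h1) (Ne.symm h2) hvw
    have e : univ.filter (fun u => u ≠ v ∧ u ≠ w ∧ k v u = b ∧ k w u = b') =
        insert r (univ.filter (fun u => u ≠ r ∧ (v ≠ u ∧ k v r = k v u) ∧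
          (w ≠ u ∧ k w r = k w u))) := by
      ext u
      simp only [mem_filter, mem_univ, true_and, mem_insert]
      constructor
      · rintro ⟨a1, a2, a3, a4⟩
        by_cases hu : u = r
        · exact Or.inl hu
        · exact Or.inr ⟨hu, ⟨Ne.symm a1, by rw [h3, a3]⟩, Ne.symm a2, by rw [h4, a4]⟩
      · rintro (rfl | ⟨a0, ⟨a1, a2⟩, a3, a4⟩)
        · exact ⟨h1, h2, h3, h4⟩
        · exact ⟨Ne.symm a1, Ne.symm a3, by rw [← a2, h3], by rw [← a4, h4]⟩
    rw [e, Finset.card_insert_of_notMem]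
    · exact h.add_one
    · simp

/-- At most one of the three relations of a triple holds. -/
theorem amo (he : ∀ v b, Even (univ.filter (fun x => x ≠ v ∧ k v x = b)).card)
    (hne : ∀ v b, ∃ x, x ≠ v ∧ k v x = b)
    (L2 : ∀ r u, r ≠ u → Odd (univ.filter (fun v => v ≠ r ∧ v ≠ u ∧ k v r = k v u)).card)
    (L3 : ∀ r u w, r ≠ u → r ≠ w → u ≠ w →
      Even (univ.filter (fun v => v ≠ r ∧ v ≠ u ∧ v ≠ w ∧ k v r = k v u ∧ k v r = k v w)).card)
    (v w u : X) (hvw : v ≠ w) (huv : u ≠ v) (huw : u ≠ w) :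
    ¬ (k v u = k v w ∧ k w u = k w v) := by
  rintro ⟨hu1, hu2⟩
  set b := k v w with hb
  set b' := k w v with hb'
  have s1 := star' k L2 L3 v w hvw (!b) b'
  have s2 := star' k L2 L3 v w hvw (!b) (!b')
  have s3 := star' k L2 L3 v w hvw b b'
  have c1 : (univ.filter (fun x => x ≠ v ∧ k v x = !b)).card =
      (univ.filter (fun u => u ≠ v ∧ u ≠ w ∧ k v u = !b ∧ k w u = b')).card +
      (univ.filter (fun u => u ≠ v ∧ u ≠ w ∧ k v u = !b ∧ k w u = !b')).card := by
    rw [← Finset.card_union_of_disjoint]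
    · congr 1
      ext x
      simp only [mem_filter, mem_univ, true_and, mem_union]
      constructor
      · rintro ⟨h1, h2⟩
        have hxw : x ≠ w := by
          rintro rfl
          rw [← hb] at h2
          cases b <;> simp at h2
        rcases Bool.eq_or_eq_not (k w x) b' with h | h
        · exact Or.inl ⟨h1, hxw, h2, h⟩
        · exact Or.inr ⟨h1, hxw, h2, h⟩
      · rintro (⟨h1, _, h2, _⟩ | ⟨h1, _, h2, _⟩) <;> exact ⟨h1, h2⟩
    · rw [Finset.disjoint_left]
      intro x hx hx'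
      simp only [mem_filter, mem_univ, true_and] at hx hx'
      have h := hx.2.2.2.symm.trans hx'.2.2.2
      cases b' <;> simp at h
  have c2 : (univ.filter (fun x => x ≠ w ∧ k w x = b')).card =
      1 + (univ.filter (fun u => u ≠ v ∧ u ≠ w ∧ k v u = b ∧ k w u = b')).card +
      (univ.filter (fun u => u ≠ v ∧ u ≠ w ∧ k v u = !b ∧ k w u = b')).card := by
    have : univ.filter (fun x => x ≠ w ∧ k w x = b') = insert v
        ((univ.filter (fun u => u ≠ v ∧ u ≠ w ∧ k v u = b ∧ k w u = b')) ∪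
        (univ.filter (fun u => u ≠ v ∧ u ≠ w ∧ k v u = !b ∧ k w u = b'))) := by
      ext x
      simp only [mem_filter, mem_univ, true_and, mem_union, mem_insert]
      constructor
      · rintro ⟨h1, h2⟩
        by_cases hxv : x = v
        · exact Or.inl hxv
        · rcases Bool.eq_or_eq_not (k v x) b with h | h
          · exact Or.inr (Or.inl ⟨hxv, h1, h, h2⟩)
          · exact Or.inr (Or.inr ⟨hxv, h1, h, h2⟩)
      · rintro (rfl | ⟨_, h1, _, h2⟩ | ⟨_, h1, _, h2⟩)
        · exact ⟨hvw, hb'.symm⟩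
        · exact ⟨h1, h2⟩
        · exact ⟨h1, h2⟩
    rw [this, Finset.card_insert_of_notMem, Finset.card_union_of_disjoint]
    · ring
    · rw [Finset.disjoint_left]
      intro x hx hx'
      simp only [mem_filter, mem_univ, true_and] at hx hx'
      have h := hx.2.2.1.symm.trans hx'.2.2.1
      cases b <;> simp at h
    · simp
  have hpos : 0 < (univ.filter (fun x => x ≠ v ∧ k v x = !b)).card := by
    obtain ⟨x, hx, hx'⟩ := hne v (!b)
    exact Finset.card_pos.mpr ⟨x, by simp only [mem_filter, mem_univ, true_and]; exact ⟨hx, hx'⟩⟩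
  have hpos3 : 0 < (univ.filter (fun u => u ≠ v ∧ u ≠ w ∧ k v u = b ∧ k w u = b')).card :=
    Finset.card_pos.mpr ⟨u, by
      simp only [mem_filter, mem_univ, true_and]; exact ⟨huv, huw, hu1, hu2⟩⟩
  have e1 := he v (!b)
  have e2 := he w b'
  rw [c1] at e1 hpos
  rw [c2] at e2
  generalize (univ.filter (fun u => u ≠ v ∧ u ≠ w ∧ k v u = !b ∧ k w u = b')).card = p at *
  generalize (univ.filter (fun u => u ≠ v ∧ u ≠ w ∧ k v u = !b ∧ k w u = !b')).card = q at *
  generalize (univ.filter (fun u => u ≠ v ∧ u ≠ w ∧ k v u = b ∧ k w u = b')).card = s at *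
  rcases e1 with ⟨m1, hm1⟩
  rcases e2 with ⟨m2, hm2⟩
  rcases s3 with s3 | ⟨m3, s3⟩
  · omega
  · rcases s1 with s1 | ⟨m4, s1⟩ <;> rcases s2 with s2 | ⟨m5, s2⟩ <;> omega

/-- The finite argument of Theorem A. -/
theorem comb (hn : Odd (Fintype.card X))
    (he : ∀ v b, Even (univ.filter (fun x => x ≠ v ∧ k v x = b)).card)
    (hne : ∀ v b, ∃ x, x ≠ v ∧ k v x = b)
    (L2 : ∀ r u, r ≠ u → Odd (univ.filter (fun v => v ≠ r ∧ v ≠ u ∧ k v r = k v u)).card)
    (L3 : ∀ r u w, r ≠ u → r ≠ w → u ≠ w →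
      Even (univ.filter (fun v => v ≠ r ∧ v ≠ u ∧ v ≠ w ∧ k v r = k v u ∧ k v r = k v w)).card) :
    Fintype.card X = 5 := by
  set n := Fintype.card X with hncard
  -- class sizes
  have hcl : ∀ v, (univ.filter (fun x => x ≠ v ∧ k v x = true)).card +
      (univ.filter (fun x => x ≠ v ∧ k v x = false)).card + 1 = n := by
    intro v
    have h1 : (univ.filter (fun x : X => x ≠ v)).card + 1 = n := by
      rw [Finset.filter_ne' univ v, Finset.card_erase_add_one (mem_univ v), Finset.card_univ]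
    rw [← h1, ← Finset.card_union_of_disjoint]
    · congr 2
      ext x
      simp only [mem_filter, mem_univ, true_and, mem_union]
      cases k v x <;> simp
    · rw [Finset.disjoint_left]
      intro x hx hx'
      simp only [mem_filter, mem_univ, true_and] at hx hx'
      have h := hx.2.symm.trans hx'.2
      simp at h
  have hpos : ∀ v b, 2 ≤ (univ.filter (fun x => x ≠ v ∧ k v x = b)).card := by
    intro v b
    obtain ⟨x, hx, hx'⟩ := hne v b
    have h1 : 0 < (univ.filter (fun x => x ≠ v ∧ k v x = b)).card :=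
      Finset.card_pos.mpr ⟨x, by simp only [mem_filter, mem_univ, true_and]; exact ⟨hx, hx'⟩⟩
    rcases he v b with ⟨m, hm⟩
    omega
  obtain ⟨v0⟩ : Nonempty X := by
    rw [← Fintype.card_pos_iff]
    exact hn.pos
  have hn5 : 5 ≤ n := by
    have h1 := hcl v0
    have h2 := hpos v0 true
    have h3 := hpos v0 false
    omega
  -- counting
  set g : X → X → X → ℕ := fun x y z =>
    if x ≠ y ∧ y ≠ z ∧ z ≠ x ∧ k x y = k x z then 1 else 0 with hg
  set d : X → X → X → ℕ := fun x y z => if x ≠ y ∧ y ≠ z ∧ z ≠ x then 1 else 0 with hd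
  have hgd : ∀ x y z, g x y z + g y z x + g z x y ≤ d x y z := by
    intro x y z
    rw [hg, hd]
    simp only
    by_cases h : x ≠ y ∧ y ≠ z ∧ z ≠ x
    · obtain ⟨h1, h2, h3⟩ := h
      have a1 := amo k he hne L2 L3 x y z h1 h3 (Ne.symm h2)
      have a2 := amo k he hne L2 L3 y z x h2 h1 (Ne.symm h3)
      have a3 := amo k he hne L2 L3 z x y h3 h2 (Ne.symm h1)
      rw [if_pos (show x ≠ y ∧ y ≠ z ∧ z ≠ x from ⟨h1, h2, h3⟩)]
      split_ifs with c1 c2 c3 c3 c2 c3 c3
      · exact absurd ⟨c1.2.2.2.symm, c2.2.2.2⟩ a1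
      · exact absurd ⟨c1.2.2.2.symm, c2.2.2.2⟩ a1
      · exact absurd ⟨c3.2.2.2.symm, c1.2.2.2⟩ a3
      · omega
      · exact absurd ⟨c2.2.2.2.symm, c3.2.2.2⟩ a2
      · omega
      · omega
      · omega
    · rw [if_neg h, if_neg (fun h' => h ⟨h'.1, h'.2.1, h'.2.2.1⟩),
        if_neg (fun h' => h ⟨h'.2.2.1, h'.1, h'.2.1⟩), if_neg (fun h' => h ⟨h'.2.1, h'.2.2.1, h'.1⟩)]
  have hS : 3 * ∑ x, ∑ y, ∑ z, g x y z ≤ ∑ x, ∑ y, ∑ z, d x y z := by
    have e1 : ∑ x, ∑ y, ∑ z, g y z x = ∑ x, ∑ y, ∑ z, g x y z := by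
      rw [Finset.sum_comm]
      refine Finset.sum_congr rfl fun y _ => ?_
      rw [Finset.sum_comm]
    have e2 : ∑ x, ∑ y, ∑ z, g z x y = ∑ x, ∑ y, ∑ z, g x y z := by
      have : ∑ x, ∑ y, ∑ z, g z x y = ∑ x, ∑ z, ∑ y, g z x y :=
        Finset.sum_congr rfl fun x _ => Finset.sum_comm
      rw [this, Finset.sum_comm]
    have e3 : 3 * ∑ x, ∑ y, ∑ z, g x y z =
        ∑ x, ∑ y, ∑ z, (g x y z + g y z x + g z x y) := by
      simp only [Finset.sum_add_distrib]
      rw [e1, e2]; ring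
    rw [e3]
    exact Finset.sum_le_sum fun x _ => Finset.sum_le_sum fun y _ => Finset.sum_le_sum fun z _ =>
      hgd x y z
  have hD : ∑ x, ∑ y, ∑ z, d x y z = n * ((n - 1) * (n - 2)) := by
    have h1 : ∀ x y : X, x ≠ y → ∑ z, d x y z = n - 2 := by
      intro x y hxy
      rw [hd]
      simp only
      rw [Finset.sum_boole]
      have : univ.filter (fun z => x ≠ y ∧ y ≠ z ∧ z ≠ x) = (univ.erase x).erase y := by
        ext z
        simp only [mem_filter, mem_univ, true_and, mem_erase, and_true]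
        exact ⟨fun h => ⟨h.2.1.symm, h.2.2⟩, fun h => ⟨hxy, h.1.symm, h.2⟩⟩
      rw [this, Finset.card_erase_of_mem (mem_erase.mpr ⟨hxy.symm, mem_univ y⟩),
        Finset.card_erase_of_mem (mem_univ x), Finset.card_univ]
      simp only [Nat.cast_id]
      omega
    have h2 : ∀ x : X, ∑ y, ∑ z, d x y z = (n - 1) * (n - 2) := by
      intro x
      rw [← Finset.add_sum_erase univ _ (mem_univ x)]
      have h3 : ∑ z, d x x z = 0 := by
        apply Finset.sum_eq_zero
        intro z _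
        rw [hd]; simp
      rw [h3, zero_add, Finset.sum_congr rfl (fun y hy => h1 x y (mem_erase.mp hy).1.symm),
        Finset.sum_const, Finset.card_erase_of_mem (mem_univ x), Finset.card_univ, smul_eq_mul]
    rw [Finset.sum_congr rfl (fun x _ => h2 x), Finset.sum_const, Finset.card_univ, smul_eq_mul]
  have hG : ∀ x, (n - 1) * (n - 1) ≤ 2 * (∑ y, ∑ z, g x y z) + 2 * (n - 1) := by
    intro x
    set a := (univ.filter (fun y => y ≠ x ∧ k x y = true)).card with ha
    set b := (univ.filter (fun y => y ≠ x ∧ k x y = false)).card with hb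
    have hab : a + b + 1 = n := hcl x
    -- for each y ≠ x the number of z is (class size) - 1
    have h1 : ∀ y, y ≠ x → ∑ z, g x y z + 1 = if k x y = true then a else b := by
      intro y hy
      rw [hg]
      simp only
      rw [Finset.sum_boole]
      have e : insert y (univ.filter (fun z => x ≠ y ∧ y ≠ z ∧ z ≠ x ∧ k x y = k x z)) =
          univ.filter (fun z => z ≠ x ∧ k x z = k x y) := by
        ext z
        simp only [mem_filter, mem_univ, true_and, mem_insert]
        constructor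
        · rintro (rfl | ⟨_, _, h3, h4⟩)
          · exact ⟨hy, rfl⟩
          · exact ⟨h3, h4.symm⟩
        · rintro ⟨h3, h4⟩
          by_cases hzy : z = y
          · exact Or.inl hzy
          · exact Or.inr ⟨hy.symm, Ne.symm hzy, h3, h4.symm⟩
      have e' : (univ.filter (fun z => x ≠ y ∧ y ≠ z ∧ z ≠ x ∧ k x y = k x z)).card + 1 =
          (univ.filter (fun z => z ≠ x ∧ k x z = k x y)).card := by
        rw [← e, Finset.card_insert_of_notMem]
        simp
      simp only [Nat.cast_id]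
      rw [e']
      cases hk : k x y
      · rw [if_neg (by simp)]
      · rw [if_pos rfl]
    have h2 : ∑ y ∈ univ.erase x, (∑ z, g x y z + 1) = a * a + b * b := by
      rw [Finset.sum_congr rfl (fun y hy => h1 y (mem_erase.mp hy).1), Finset.sum_ite,
        Finset.sum_const, Finset.sum_const, smul_eq_mul, smul_eq_mul]
      have e1 : (univ.erase x).filter (fun y => k x y = true) =
          univ.filter (fun y => y ≠ x ∧ k x y = true) := by
        ext y; simp only [mem_filter, mem_erase, mem_univ, and_true, true_and]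
      have e2 : (univ.erase x).filter (fun y => ¬ k x y = true) =
          univ.filter (fun y => y ≠ x ∧ k x y = false) := by
        ext y; simp only [mem_filter, mem_erase, mem_univ, and_true, true_and, Bool.not_eq_true]
      rw [e1, e2]
    have h3 : ∑ y ∈ univ.erase x, (∑ z, g x y z + 1) = ∑ y, ∑ z, g x y z + (n - 1) := by
      rw [Finset.sum_add_distrib, Finset.sum_const, Finset.card_erase_of_mem (mem_univ x),
        Finset.card_univ, smul_eq_mul, mul_one, ← Finset.add_sum_erase univ _ (mem_univ x)]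
      have h4 : ∑ z, g x x z = 0 := by
        apply Finset.sum_eq_zero
        intro z _
        rw [hg]; simp
      rw [h4, zero_add]
    have h5 : ∑ y, ∑ z, g x y z + (n - 1) = a * a + b * b := by rw [← h3, h2]
    have h6 : n - 1 = a + b := by omega
    rw [h6] at h5 ⊢
    nlinarith [sq_nonneg ((a : ℤ) - b), h5]
  have hG' : n * ((n - 1) * (n - 1)) ≤ 2 * (∑ x, ∑ y, ∑ z, g x y z) + n * (2 * (n - 1)) := by
    have : ∑ x : X, (n - 1) * (n - 1) ≤ ∑ x : X, (2 * (∑ y, ∑ z, g x y z) + 2 * (n - 1)) :=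
      Finset.sum_le_sum fun x _ => hG x
    rw [Finset.sum_add_distrib, Finset.sum_const, Finset.sum_const,
      Finset.card_univ, smul_eq_mul, smul_eq_mul, ← Finset.mul_sum univ _ 2] at this
    exact this
  rw [hD] at hS
  -- arithmetic
  obtain ⟨m, hm⟩ : ∃ m, n = m + 5 := ⟨n - 5, by omega⟩
  have h1 : n - 1 = m + 4 := by omega
  have h2 : n - 2 = m + 3 := by omega
  rw [h1, h2, hm] at hS
  rw [h1, hm] at hG'
  have hm0 : m = 0 := by
    by_contra hm1
    have : 1 ≤ m := Nat.one_le_iff_ne_zero.mpr hm1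
    generalize ∑ x, ∑ y, ∑ z, g x y z = s at *
    nlinarith [mul_pos (show 0 < m + 5 by omega) (show 0 < m + 4 by omega), this,
      Nat.mul_le_mul (Nat.mul_le_mul (le_refl (m + 5)) (le_refl (m + 4))) this]
  omega

end comb

end Pool.THA
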