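import Mathlib

/-!
MP_7b7176_co: the laws LAW2, KLAW, FL (hence LAW3) for the parities of the structures of a graph.

`B` is a symmetric matrix over `ZMod 2` with zero diagonal, `Y` a finite set of letters; the colour of
`x` is `(a x, b x)`; the root `r` is an isolated letter outside `Y` with the colour `(1, 0)`, so
`∑ a = 1`, `∑ b = 0` over `Y`.
-/

set_option autoImplicit false
set_option linter.unusedSectionVars false

namespace Pool.THA

open Finset

/-- The parity of the fibres of an additive endomorphism of a finite elementary abelian 2-group is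
constant. -/
theorem const_parity {W : Type*} [AddCommGroup W] [Fintype W] [DecidableEq W]
    (h2 : ∀ w : W, w + w = 0) (T : W →+ W) (d d' : W) :
    ((univ.filter (fun b => T b = d)).card : ZMod 2) =
      ((univ.filter (fun b => T b = d')).card : ZMod 2) := by
  by_cases hinj : Function.Injective T
  · have hs : Function.Surjective T := Finite.injective_iff_surjective.mp hinj
    have key : ∀ d, (univ.filter (fun b => T b = d)).card = 1 := by
      intro d
      obtain ⟨b, hb⟩ := hs d
      rw [Finset.card_eq_one]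
      refine ⟨b, ?_⟩
      ext x
      simp only [mem_filter, mem_univ, true_and, mem_singleton]
      constructor
      · intro hx; exact hinj (hx.trans hb.symm)
      · rintro rfl; exact hb
    rw [key, key]
  · have : ∃ k, k ≠ 0 ∧ T k = 0 := by
      rw [injective_iff_map_eq_zero] at hinj
      push Not at hinj
      obtain ⟨k, hk, hk0⟩ := hinj
      exact ⟨k, hk0, hk⟩
    obtain ⟨k, hk0, hk⟩ := this
    have key : ∀ d, ((univ.filter (fun b => T b = d)).card : ZMod 2) = 0 := by
      intro d
      rw [Finset.card_eq_sum_ones, Nat.cast_sum]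
      refine Finset.sum_involution (fun b _ => b + k) ?_ ?_ ?_ ?_
      · intro b hb
        have : (2 : ZMod 2) = 0 := rfl
        push_cast
        rw [one_add_one_eq_two, this]
      · intro b hb _ h
        exact hk0 (by simpa using h)
      · intro b hb
        simp only [mem_filter, mem_univ, true_and] at hb ⊢
        rw [map_add, hb, hk, add_zero]
      · intro b hb
        rw [add_assoc, h2, add_zero]
    rw [key, key]

theorem z2 (x : ZMod 2) : x = 0 ∨ x = 1 := by
  revert x; decide

theorem zadd (x : ZMod 2) : x + x = 0 := by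
  revert x; decide

section law

variable {V : Type} [Fintype V] [DecidableEq V] (B : V → V → ZMod 2)

/-- The product of the matrix with a vector. -/
def mv (a : V → ZMod 2) (x : V) : ZMod 2 := ∑ y, B x y * a y

/-- The equation at `x`. -/
def ee (a b : V → ZMod 2) (c : ZMod 2) (x : V) : ZMod 2 := a x * mv B b x + b x * (c + mv B a x)

/-- The support of `(a, b)` is `Y`. -/
def St (Y : Finset V) (a b : V → ZMod 2) : Prop := ∀ x, x ∈ Y ↔ ¬ (a x = 0 ∧ b x = 0)

instance (Y : Finset V) (a b : V → ZMod 2) : Decidable (St Y a b) := by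
  unfold St; infer_instance

/-- Number of admissible `b` modulo 2. -/
def Phi (c : ZMod 2) (Y : Finset V) (a : V → ZMod 2) : ZMod 2 :=
  ((univ.filter (fun b : V → ZMod 2 => St Y a b ∧ ∑ x, b x = 0 ∧ ∀ x, ee B a b c x = 0)).card : ZMod 2)

theorem mv_add (a b : V → ZMod 2) (x : V) : mv B (a + b) x = mv B a x + mv B b x := by
  unfold mv
  rw [← Finset.sum_add_distrib]
  refine Finset.sum_congr rfl fun y _ => ?_
  rw [Pi.add_apply]; ring

theorem mv_zero (x : V) : mv B 0 x = 0 := by
  unfold mv; simp

theorem Phi_supp (c : ZMod 2) (Y : Finset V) (a : V → ZMod 2) (x : V) (hx : x ∉ Y) (ha : a x ≠ 0) :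
    Phi B c Y a = 0 := by
  unfold Phi
  rw [Finset.filter_false_of_mem]
  · simp
  · rintro b _ ⟨h, _, _⟩
    exact hx ((h x).mpr (fun h' => ha h'.1))

variable (hs : ∀ x y, B x y = B y x)

include hs in
/-- symmetry of the bilinear form -/
theorem mv_symm (a b : V → ZMod 2) : ∑ x, a x * mv B b x = ∑ x, b x * mv B a x := by
  unfold mv
  simp_rw [Finset.mul_sum]
  rw [Finset.sum_comm]
  refine Finset.sum_congr rfl fun x _ => Finset.sum_congr rfl fun y _ => ?_
  rw [hs y x]; ring

/-- The endomorphism: rows outside the support of `a` are trivial, the rows in the support are the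
equations, the row `j` is replaced by the sum. -/
def TT (a : V → ZMod 2) (c : ZMod 2) (j : V) : (V → ZMod 2) →+ (V → ZMod 2) where
  toFun := fun b x => if x = j then ∑ y, b y else if a x = 0 then b x else mv B b x + b x * (c + mv B a x)
  map_zero' := by
    funext x
    simp only [Pi.zero_apply, mv_zero, zero_mul, add_zero, Finset.sum_const_zero]
    split_ifs <;> rfl
  map_add' := by
    intro b b'
    funext x
    simp only [Pi.add_apply, mv_add, Finset.sum_add_distrib]
    split_ifs
    · rfl
    · rfl
    · ring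

include hs in
/-- The defining conditions of `Phi` in terms of `TT`. -/
theorem Phi_eq (c : ZMod 2) (Y : Finset V) (a : V → ZMod 2) (j : V) (hj : a j = 1)
    (hsupp : ∀ x, a x ≠ 0 → x ∈ Y) (hY : ∀ x ∈ Y, a x = 0 → mv B a x = c) :
    Phi B c Y a = ((univ.filter (fun b : V → ZMod 2 =>
      TT B a c j b = fun x => if x = j then 0 else if a x = 0 then (if x ∈ Y then 1 else 0) else 0)).card :
        ZMod 2) := by
  unfold Phi
  congr 2
  ext b
  simp only [mem_filter, mem_univ, true_and]
  -- the linear relation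
  have rel : (∀ x, a x = 0 → b x = if x ∈ Y then 1 else 0) →
      ∑ x, a x * (mv B b x + b x * (c + mv B a x)) = c * ∑ x, b x := by
    intro hb
    simp_rw [mul_add]
    rw [Finset.sum_add_distrib, mv_symm B hs a b, ← Finset.sum_add_distrib, Finset.mul_sum]
    refine Finset.sum_congr rfl fun x _ => ?_
    rcases z2 (a x) with h | h
    · rw [h, hb x h]
      by_cases hx : x ∈ Y
      · rw [if_pos hx, hY x hx h]; ring
      · rw [if_neg hx]; ring
    · rw [h]
      have := zadd (b x * mv B a x)
      linear_combination this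
  constructor
  · rintro ⟨hst, hsum, he⟩
    funext x
    simp only [TT, AddMonoidHom.coe_mk, ZeroHom.coe_mk]
    by_cases hxj : x = j
    · rw [if_pos hxj, if_pos hxj, hsum]
    · rw [if_neg hxj, if_neg hxj]
      by_cases hax : a x = 0
      · rw [if_pos hax, if_pos hax]
        have h := hst x
        by_cases hx : x ∈ Y
        · rw [if_pos hx]
          have := h.mp hx
          rcases z2 (b x) with h0 | h0
          · exact absurd ⟨hax, h0⟩ this
          · exact h0
        · rw [if_neg hx]
          by_contra h0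
          exact hx (h.mpr (fun h' => h0 h'.2))
      · rw [if_neg hax, if_neg hax]
        have := he x
        unfold ee at this
        rcases z2 (a x) with h | h
        · exact absurd h hax
        · rw [h, one_mul] at this
          exact this
  · intro hT
    have hT' : ∀ x, (if x = j then ∑ y, b y else if a x = 0 then b x else
        mv B b x + b x * (c + mv B a x)) =
        if x = j then 0 else if a x = 0 then (if x ∈ Y then 1 else 0) else 0 := by
      intro x
      have := congrFun hT x
      simpa only [TT, AddMonoidHom.coe_mk, ZeroHom.coe_mk] using this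
    have hsum : ∑ y, b y = 0 := by
      have := hT' j
      rwa [if_pos rfl, if_pos rfl] at this
    have hb0 : ∀ x, a x = 0 → b x = if x ∈ Y then 1 else 0 := by
      intro x hx
      have hxj : x ≠ j := by
        rintro rfl
        rw [hx] at hj; exact absurd hj (by decide)
      have := hT' x
      rwa [if_neg hxj, if_neg hxj, if_pos hx, if_pos hx] at this
    have hrow : ∀ x, x ≠ j → a x * (mv B b x + b x * (c + mv B a x)) = 0 := by
      intro x hxj
      rcases z2 (a x) with h | h
      · rw [h, zero_mul]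
      · have := hT' x
        rw [if_neg hxj, if_neg hxj, if_neg (by rw [h]; decide), if_neg (by rw [h]; decide)] at this
        rw [this, mul_zero]
    have hrowj : a j * (mv B b j + b j * (c + mv B a j)) = 0 := by
      have h1 := rel hb0
      rw [hsum, mul_zero, Finset.sum_eq_single j (fun x _ hx => hrow x hx)
        (fun h => absurd (mem_univ j) h)] at h1
      exact h1
    have hrow' : ∀ x, a x * (mv B b x + b x * (c + mv B a x)) = 0 := by
      intro x
      by_cases hx : x = j
      · rw [hx]; exact hrowj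
      · exact hrow x hx
    refine ⟨?_, hsum, ?_⟩
    · intro x
      constructor
      · rintro hx ⟨h1, h2⟩
        have := hb0 x h1
        rw [h2, if_pos hx] at this
        exact absurd this (by decide)
      · intro h
        by_contra hx
        have hax : a x = 0 := by
          by_contra h'
          exact hx (hsupp x h')
        refine h ⟨hax, ?_⟩
        rw [hb0 x hax, if_neg hx]
    · intro x
      unfold ee
      rcases z2 (a x) with h | h
      · rw [h, zero_mul, zero_add, hb0 x h]
        by_cases hx : x ∈ Y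
        · rw [if_pos hx, hY x hx h, one_mul]; exact zadd c
        · rw [if_neg hx, zero_mul]
      · have := hrow' x
        rw [h, one_mul] at this
        rw [h, one_mul]; exact this

/-- If the equation fails at a vertex of colour `(0, 1)` then `Phi` vanishes. -/
theorem Phi_bad (c : ZMod 2) (Y : Finset V) (a : V → ZMod 2) (x : V) (hx : x ∈ Y) (ha : a x = 0)
    (hc : mv B a x ≠ c) : Phi B c Y a = 0 := by
  unfold Phi
  rw [Finset.filter_false_of_mem]
  · simp
  · rintro b _ ⟨h, _, h2⟩
    have h3 := (h x).mp hx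
    have hb : b x = 1 := by
      rcases z2 (b x) with h0 | h0
      · exact absurd ⟨ha, h0⟩ h3
      · exact h0
    have := h2 x
    unfold ee at this
    rw [ha, hb, zero_mul, zero_add, one_mul] at this
    apply hc
    have h5 := zadd c
    linear_combination this - h5

include hs in
/-- DEL. -/
theorem Phi_del (c : ZMod 2) (Y : Finset V) (a : V → ZMod 2) (u : V) (hu : u ∈ Y) (hau : a u = 0)
    (hsum : ∑ x, a x = 1) :
    Phi B c Y a = (1 + c + mv B a u) * Phi B c (Y.erase u) a := by
  obtain ⟨j, hj⟩ : ∃ j, a j = 1 := by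
    by_contra h
    push Not at h
    have : ∀ x, a x = 0 := fun x => (z2 (a x)).resolve_right (h x)
    simp [this] at hsum
  by_cases hc : mv B a u = c
  · have h1 : 1 + c + mv B a u = 1 := by
      rw [hc, add_assoc, zadd, add_zero]
    rw [h1, one_mul]
    by_cases hsupp : ∀ x, a x ≠ 0 → x ∈ Y
    · have hsupp' : ∀ x, a x ≠ 0 → x ∈ Y.erase u := by
        intro x hx
        rw [mem_erase]
        refine ⟨?_, hsupp x hx⟩
        rintro rfl
        exact hx hau
      by_cases hY : ∀ x ∈ Y, a x = 0 → mv B a x = c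
      · have hY' : ∀ x ∈ Y.erase u, a x = 0 → mv B a x = c := fun x hx => hY x (mem_of_mem_erase hx)
        rw [Phi_eq B hs c Y a j hj hsupp hY, Phi_eq B hs c (Y.erase u) a j hj hsupp' hY']
        exact const_parity (fun w => by funext x; exact zadd (w x)) _ _ _
      · push Not at hY
        obtain ⟨x, hx, hax, hxc⟩ := hY
        have hxu : x ≠ u := by
          rintro rfl
          exact hxc hc
        rw [Phi_bad B c Y a x hx hax hxc,
          Phi_bad B c (Y.erase u) a x (mem_erase.mpr ⟨hxu, hx⟩) hax hxc]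
    · push Not at hsupp
      obtain ⟨x, hax, hx⟩ := hsupp
      rw [Phi_supp B c Y a x hx hax,
        Phi_supp B c (Y.erase u) a x (fun h => hx (mem_of_mem_erase h)) hax]
  · rw [Phi_bad B c Y a u hu hau hc]
    have h1 : 1 + c + mv B a u = 0 := by
      rcases z2 c with h | h <;> rcases z2 (mv B a u) with h' | h' <;> rw [h, h'] at hc ⊢ <;>
        first | exact absurd rfl hc | decide
    rw [h1, zero_mul]

/-- The sum of `psi a * Phi a` over all `a` with `∑ a = 1`. -/
def GG (c : ZMod 2) (Y : Finset V) (psi : (V → ZMod 2) → ZMod 2) : ZMod 2 :=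
  ∑ a ∈ univ.filter (fun a : V → ZMod 2 => ∑ x, a x = 1), psi a * Phi B c Y a

/-- (S) -/
theorem GG_one (c : ZMod 2) (Y : Finset V) : GG B c Y (fun _ => 1) = (Y.card : ZMod 2) := by
  unfold GG
  -- the set of pairs
  set P : Finset ((V → ZMod 2) × (V → ZMod 2)) := univ.filter (fun p =>
    ∑ x, p.1 x = 1 ∧ St Y p.1 p.2 ∧ ∑ x, p.2 x = 0 ∧ ∀ x, ee B p.1 p.2 c x = 0) with hP
  have e1 : ∑ a ∈ univ.filter (fun a : V → ZMod 2 => ∑ x, a x = 1), (1 : ZMod 2) * Phi B c Y a =
      ∑ p ∈ P, (1 : ZMod 2) := by
    rw [hP, Finset.sum_filter, Finset.sum_filter, ← Finset.univ_product_univ, Finset.sum_product]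
    refine Finset.sum_congr rfl fun a _ => ?_
    by_cases ha : ∑ x, a x = 1
    · rw [if_pos ha, one_mul]
      unfold Phi
      rw [Finset.card_eq_sum_ones, Nat.cast_sum, Finset.sum_filter]
      refine Finset.sum_congr rfl fun b _ => ?_
      simp only [ha, true_and]
      push_cast
      rfl
    · rw [if_neg ha]
      symm
      apply Finset.sum_eq_zero
      intro b _
      rw [if_neg]
      rintro ⟨h, _⟩
      exact ha h
  rw [e1]
  -- the involution on pairs with b ≠ 0
  have e2 : ∑ p ∈ P, (1 : ZMod 2) = ∑ p ∈ P.filter (fun p => p.2 = 0), (1 : ZMod 2) +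
      ∑ p ∈ P.filter (fun p => ¬ p.2 = 0), (1 : ZMod 2) :=
    (Finset.sum_filter_add_sum_filter_not P (fun p => p.2 = 0) _).symm
  have e3 : ∑ p ∈ P.filter (fun p => ¬ p.2 = 0), (1 : ZMod 2) = 0 := by
    refine Finset.sum_involution (fun p _ => (p.1 + p.2, p.2)) ?_ ?_ ?_ ?_
    · intro p _; exact zadd 1
    · intro p hp _ h
      simp only [mem_filter] at hp
      apply hp.2
      have := congrArg Prod.fst h
      simpa using this
    · intro p hp
      simp only [hP, mem_filter, mem_univ, true_and] at hp ⊢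
      obtain ⟨⟨h1, h2, h3, h4⟩, h5⟩ := hp
      refine ⟨⟨?_, ?_, h3, ?_⟩, h5⟩
      · simp only [Pi.add_apply, Finset.sum_add_distrib, h1, h3, add_zero]
      · intro x
        rw [h2 x]
        simp only [Pi.add_apply]
        constructor
        · rintro h ⟨ha, hb⟩
          rw [hb, add_zero] at ha
          exact h ⟨ha, hb⟩
        · rintro h ⟨ha, hb⟩
          exact h ⟨by rw [ha, hb, add_zero], hb⟩
      · intro x
        have := h4 x
        unfold ee at this ⊢
        rw [mv_add, Pi.add_apply]
        have h6 := zadd (p.2 x * mv B p.2 x)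
        linear_combination this + h6
    · intro p hp
      simp only
      ext x
      · simp only [Pi.add_apply]
        rw [add_assoc, zadd, add_zero]
      · rfl
  rw [e2, e3, add_zero]
  -- fixed points
  by_cases hodd : ((Y.card : ℕ) : ZMod 2) = 1
  · have : P.filter (fun p => p.2 = 0) = {(fun x => if x ∈ Y then 1 else 0, 0)} := by
      ext p
      simp only [hP, mem_filter, mem_univ, true_and, mem_singleton]
      constructor
      · rintro ⟨⟨h1, h2, h3, h4⟩, h5⟩
        refine Prod.ext ?_ h5
        funext x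
        simp only
        have := h2 x
        rw [h5] at this
        by_cases hx : x ∈ Y
        · rw [if_pos hx]
          rcases z2 (p.1 x) with h | h
          · exact absurd ⟨h, rfl⟩ (this.mp hx)
          · exact h
        · rw [if_neg hx]
          by_contra h
          exact hx (this.mpr (fun h' => h h'.1))
      · rintro rfl
        refine ⟨⟨?_, ?_, ?_, ?_⟩, rfl⟩
        · simp only [Finset.sum_ite_mem, Finset.univ_inter, Finset.sum_const, nsmul_eq_mul, mul_one]
          exact hodd
        · intro x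
          by_cases hx : x ∈ Y <;> simp [hx]
        · simp
        · intro x
          unfold ee
          simp [mv_zero]
    rw [this, Finset.sum_singleton, hodd]
  · have h0 : ((Y.card : ℕ) : ZMod 2) = 0 := (z2 _).resolve_right hodd
    have : P.filter (fun p => p.2 = 0) = ∅ := by
      rw [Finset.filter_eq_empty_iff]
      intro p hp h5
      simp only [hP, mem_filter, mem_univ, true_and] at hp
      obtain ⟨h1, h2, h3, h4⟩ := hp
      apply hodd
      rw [← h1]
      have : ∀ x, p.1 x = if x ∈ Y then 1 else 0 := by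
        intro x
        have := h2 x
        rw [h5] at this
        by_cases hx : x ∈ Y
        · rw [if_pos hx]
          rcases z2 (p.1 x) with h | h
          · exact absurd ⟨h, rfl⟩ (this.mp hx)
          · exact h
        · rw [if_neg hx]
          by_contra h
          exact hx (this.mpr (fun h' => h h'.1))
      simp only [this, Finset.sum_ite_mem, Finset.univ_inter, Finset.sum_const, nsmul_eq_mul, mul_one]
    rw [this, Finset.sum_empty, h0]

/-- `F^c_Y(u)`: structures with `u` of colour `(0, 1)`. -/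
def F1 (c : ZMod 2) (Y : Finset V) (u : V) : ZMod 2 := GG B c Y (fun a => 1 + a u)

/-- `F^c_Y(u, w)`: structures with `u`, `w` of colour `(0, 1)`. -/
def F2 (c : ZMod 2) (Y : Finset V) (u w : V) : ZMod 2 := GG B c Y (fun a => (1 + a u) * (1 + a w))

/-- `F_Y(u)` -/
def FF (Y : Finset V) (u : V) : ZMod 2 := F1 B 0 Y u + F1 B 1 Y u

/-- `F_Y(u, w)` -/
def FFF (Y : Finset V) (u w : V) : ZMod 2 := F2 B 0 Y u w + F2 B 1 Y u w

theorem GG_add (c : ZMod 2) (Y : Finset V) (p q : (V → ZMod 2) → ZMod 2) :
    GG B c Y (fun a => p a + q a) = GG B c Y p + GG B c Y q := by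
  unfold GG
  rw [← Finset.sum_add_distrib]
  exact Finset.sum_congr rfl fun a _ => by ring

theorem GG_mul (c : ZMod 2) (Y : Finset V) (k : ZMod 2) (q : (V → ZMod 2) → ZMod 2) :
    GG B c Y (fun a => k * q a) = k * GG B c Y q := by
  unfold GG
  rw [Finset.mul_sum]
  exact Finset.sum_congr rfl fun a _ => by ring

theorem GG_sum (c : ZMod 2) (Y : Finset V) (q : V → (V → ZMod 2) → ZMod 2) :
    GG B c Y (fun a => ∑ x, q x a) = ∑ x, GG B c Y (q x) := by
  unfold GG
  rw [Finset.sum_comm]
  exact Finset.sum_congr rfl fun a _ => by rw [Finset.sum_mul]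

theorem GG_congr (c : ZMod 2) (Y : Finset V) (p q : (V → ZMod 2) → ZMod 2)
    (h : ∀ a, (∀ x, x ∉ Y → a x = 0) → p a = q a) : GG B c Y p = GG B c Y q := by
  unfold GG
  refine Finset.sum_congr rfl fun a _ => ?_
  by_cases ha : ∀ x, x ∉ Y → a x = 0
  · rw [h a ha]
  · push Not at ha
    obtain ⟨x, hx, hax⟩ := ha
    rw [Phi_supp B c Y a x hx hax, mul_zero, mul_zero]

include hs in
/-- DEL in the form of `GG`: if `psi a = 0` for `a u ≠ 0`. -/
theorem GG_del (c : ZMod 2) (Y : Finset V) (u : V) (hu : u ∈ Y) (p : (V → ZMod 2) → ZMod 2) :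
    GG B c Y (fun a => (1 + a u) * p a) =
      GG B c (Y.erase u) (fun a => (1 + c + mv B a u) * p a) := by
  unfold GG
  refine Finset.sum_congr rfl fun a ha => ?_
  simp only [mem_filter, mem_univ, true_and] at ha
  beta_reduce
  rcases z2 (a u) with h | h
  · rw [Phi_del B hs c Y a u hu h ha, h, add_zero, one_mul]; ring
  · rw [Phi_supp B c (Y.erase u) a u (notMem_erase u Y) (by rw [h]; decide), mul_zero, h]
    have : (1 : ZMod 2) + 1 = 0 := by decide
    rw [this, zero_mul, zero_mul]

theorem F1_out (c : ZMod 2) (Y : Finset V) (x : V) (hx : x ∉ Y) : F1 B c Y x = (Y.card : ZMod 2) := by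
  unfold F1
  rw [← GG_one B c Y]
  exact GG_congr B c Y _ _ fun a ha => by rw [ha x hx, add_zero]

theorem F2_out (c : ZMod 2) (Y : Finset V) (x w : V) (hx : x ∉ Y) : F2 B c Y x w = F1 B c Y w := by
  unfold F1 F2
  exact GG_congr B c Y _ _ fun a ha => by rw [ha x hx, add_zero, one_mul]

theorem F2_diag (c : ZMod 2) (Y : Finset V) (w : V) : F2 B c Y w w = F1 B c Y w := by
  unfold F1 F2
  refine GG_congr B c Y _ _ fun a _ => ?_
  rcases z2 (a w) with h | h <;> rw [h] <;> decide

theorem F2_symm (c : ZMod 2) (Y : Finset V) (u w : V) : F2 B c Y u w = F2 B c Y w u := by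
  unfold F2
  exact GG_congr B c Y _ _ fun a _ => mul_comm _ _

include hs in
theorem F1_rec (c : ZMod 2) (Y : Finset V) (u : V) (hu : u ∈ Y) :
    F1 B c Y u = (1 + c) * ((Y.erase u).card : ZMod 2) +
      ∑ x, B u x * (((Y.erase u).card : ZMod 2) + F1 B c (Y.erase u) x) := by
  have h1 : F1 B c Y u = GG B c Y (fun a => (1 + a u) * 1) := by
    unfold F1; simp only [mul_one]
  rw [h1, GG_del B hs c Y u hu]
  have h2 : (fun a : V → ZMod 2 => (1 + c + mv B a u) * (1 : ZMod 2)) =
      fun a => (1 + c) * (1 : ZMod 2) + ∑ x, B u x * (1 + (1 + a x)) := by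
    funext a
    unfold mv
    rw [mul_one, mul_one]
    congr 1
    refine Finset.sum_congr rfl fun x _ => ?_
    rw [← add_assoc, zadd, zero_add]
  rw [h2, GG_add, GG_mul, GG_one, GG_sum]
  congr 1
  refine Finset.sum_congr rfl fun x _ => ?_
  rw [GG_mul, GG_add, GG_one]
  rfl

include hs in
theorem F2_rec (c : ZMod 2) (Y : Finset V) (u w : V) (hu : u ∈ Y) :
    F2 B c Y u w = (1 + c) * F1 B c (Y.erase u) w +
      ∑ x, B u x * (F1 B c (Y.erase u) w + F2 B c (Y.erase u) x w) := by
  unfold F2
  rw [GG_del B hs c Y u hu]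
  have h2 : (fun a : V → ZMod 2 => (1 + c + mv B a u) * (1 + a w)) =
      fun a => (1 + c) * (1 + a w) + ∑ x, B u x * ((1 + a w) + (1 + a x) * (1 + a w)) := by
    funext a
    unfold mv
    rw [add_mul, Finset.sum_mul]
    congr 1
    refine Finset.sum_congr rfl fun x _ => ?_
    have := zadd (B u x * (1 + a w))
    linear_combination (-1 : ZMod 2) * this
  rw [h2, GG_add, GG_mul, GG_sum]
  congr 1
  refine Finset.sum_congr rfl fun x _ => ?_
  rw [GG_mul, GG_add]
  rfl

theorem FF_out (Y : Finset V) (x : V) (hx : x ∉ Y) : FF B Y x = 0 := by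
  unfold FF
  rw [F1_out B 0 Y x hx, F1_out B 1 Y x hx]
  exact zadd _

theorem FFF_out (Y : Finset V) (x w : V) (hx : x ∉ Y) : FFF B Y x w = FF B Y w := by
  unfold FFF FF
  rw [F2_out B 0 Y x w hx, F2_out B 1 Y x w hx]

theorem FFF_diag (Y : Finset V) (w : V) : FFF B Y w w = FF B Y w := by
  unfold FFF FF
  rw [F2_diag, F2_diag]

theorem FFF_symm (Y : Finset V) (u w : V) : FFF B Y u w = FFF B Y w u := by
  unfold FFF
  rw [F2_symm B 0, F2_symm B 1]

include hs in
/-- (R) -/
theorem FF_rec (Y : Finset V) (u : V) (hu : u ∈ Y) :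
    FF B Y u = ((Y.erase u).card : ZMod 2) + ∑ x, B u x * FF B (Y.erase u) x := by
  unfold FF
  rw [F1_rec B hs 0 Y u hu, F1_rec B hs 1 Y u hu]
  have e : (1 : ZMod 2) + 1 = 0 := by decide
  rw [e, zero_mul, zero_add, add_zero, one_mul, add_assoc, ← Finset.sum_add_distrib]
  congr 1
  refine Finset.sum_congr rfl fun x _ => ?_
  have := zadd (B u x * ((Y.erase u).card : ZMod 2))
  linear_combination this

include hs in
/-- (R3) -/
theorem FFF_rec (Y : Finset V) (u w : V) (hu : u ∈ Y) :
    FFF B Y u w = F1 B 0 (Y.erase u) w +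
      ∑ x, B u x * (FF B (Y.erase u) w + FFF B (Y.erase u) x w) := by
  unfold FFF FF
  rw [F2_rec B hs 0 Y u w hu, F2_rec B hs 1 Y u w hu]
  have e : (1 : ZMod 2) + 1 = 0 := by decide
  rw [e, zero_mul, zero_add, add_zero, one_mul, add_assoc, ← Finset.sum_add_distrib]
  congr 1
  refine Finset.sum_congr rfl fun x _ => ?_
  ring

/-- `k (k - 1)` is even. -/
theorem cc1 (Z : Finset V) (v : V) (hv : v ∈ Z) :
    ((Z.card : ZMod 2)) * ((Z.erase v).card : ZMod 2) = 0 := by
  have h : Z.card = (Z.erase v).card + 1 := (Finset.card_erase_add_one hv).symm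
  rw [h]
  push_cast
  rcases z2 ((Z.erase v).card : ZMod 2) with h | h <;> rw [h] <;> decide

theorem sum_card_erase (Z : Finset V) : ∑ v ∈ Z, ((Z.erase v).card : ZMod 2) = 0 := by
  rcases Z.eq_empty_or_nonempty with rfl | ⟨w, hw⟩
  · simp
  · have : ∀ v ∈ Z, ((Z.erase v).card : ZMod 2) = ((Z.erase w).card : ZMod 2) := by
      intro v hv
      rw [Finset.card_erase_of_mem hv, Finset.card_erase_of_mem hw]
    rw [Finset.sum_congr rfl this, Finset.sum_const, nsmul_eq_mul, cc1 Z w hw]

include hs in
/-- LAW2 -/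
theorem law2 (Y : Finset V) (u : V) (hu : u ∈ Y) : ∑ v ∈ Y.erase u, FF B (Y.erase v) u = 0 := by
  induction' hn : Y.card using Nat.strong_induction_on with n ih generalizing Y u
  set Z := Y.erase u with hZ
  have h1 : ∀ v ∈ Z, FF B (Y.erase v) u =
      ((Z.erase v).card : ZMod 2) + ∑ x, B u x * FF B (Z.erase v) x := by
    intro v hv
    have hvu : v ≠ u := (mem_erase.mp hv).1
    rw [FF_rec B hs (Y.erase v) u (mem_erase.mpr ⟨hvu.symm, hu⟩), Finset.erase_right_comm]
  rw [Finset.sum_congr rfl h1, Finset.sum_add_distrib, sum_card_erase, zero_add, Finset.sum_comm]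
  apply Finset.sum_eq_zero
  intro x _
  rw [← Finset.mul_sum]
  by_cases hx : x ∈ Z
  · rw [← Finset.add_sum_erase Z _ hx, FF_out B (Z.erase x) x (notMem_erase x Z),
      ih Z.card (by rw [← hn]; exact Finset.card_erase_lt_of_mem hu) Z x hx rfl, add_zero, mul_zero]
  · rw [Finset.sum_eq_zero, mul_zero]
    intro v _
    exact FF_out B _ x (fun h => hx (mem_of_mem_erase h))

include hs in
/-- KLAW -/
theorem klaw (Y : Finset V) (w : V) (hw : w ∈ Y) :
    ∑ v ∈ Y.erase w, F1 B 0 (Y.erase v) w = ((Y.erase w).card : ZMod 2) + FF B Y w := by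
  induction' hn : Y.card using Nat.strong_induction_on with n ih generalizing Y w
  set Z := Y.erase w with hZ
  have h1 : ∀ v ∈ Z, F1 B 0 (Y.erase v) w =
      ((Z.erase v).card : ZMod 2) +
        ∑ x, B w x * (((Z.erase v).card : ZMod 2) + F1 B 0 (Z.erase v) x) := by
    intro v hv
    have hvu : v ≠ w := (mem_erase.mp hv).1
    rw [F1_rec B hs 0 (Y.erase v) w (mem_erase.mpr ⟨hvu.symm, hw⟩), Finset.erase_right_comm,
      add_zero, one_mul]
  rw [Finset.sum_congr rfl h1, Finset.sum_add_distrib, sum_card_erase, zero_add, Finset.sum_comm,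
    FF_rec B hs Y w hw, ← add_assoc, zadd, zero_add]
  refine Finset.sum_congr rfl fun x _ => ?_
  rw [← Finset.mul_sum, Finset.sum_add_distrib, sum_card_erase, zero_add]
  congr 1
  by_cases hx : x ∈ Z
  · rw [← Finset.add_sum_erase Z _ hx, F1_out B 0 (Z.erase x) x (notMem_erase x Z),
      ih Z.card (by rw [← hn]; exact Finset.card_erase_lt_of_mem hw) Z x hx rfl, ← add_assoc, zadd,
      zero_add]
  · have h5 : ∑ v ∈ Z, F1 B 0 (Z.erase v) x = ∑ v ∈ Z, ((Z.erase v).card : ZMod 2) :=
      Finset.sum_congr rfl fun v _ => F1_out B 0 _ x (fun h => hx (mem_of_mem_erase h))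
    rw [FF_out B Z x hx, h5, sum_card_erase]

include hs in
/-- FL -/
theorem fl (Y : Finset V) (u w : V) (hu : u ∈ Y) (hw : w ∈ Y) (huw : u ≠ w) :
    ∑ v ∈ (Y.erase u).erase w, FFF B (Y.erase v) u w = FF B (Y.erase w) u + FF B (Y.erase u) w := by
  induction' hn : Y.card using Nat.strong_induction_on with n ih generalizing Y u w
  set Z := Y.erase u with hZ
  have hwZ : w ∈ Z := mem_erase.mpr ⟨huw.symm, hw⟩
  have h1 : ∀ v ∈ Z.erase w, FFF B (Y.erase v) u w = F1 B 0 (Z.erase v) w +
      ∑ x, B u x * (FF B (Z.erase v) w + FFF B (Z.erase v) x w) := by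
    intro v hv
    have hvu : v ≠ u := (mem_erase.mp (mem_of_mem_erase hv)).1
    rw [FFF_rec B hs (Y.erase v) u w (mem_erase.mpr ⟨hvu.symm, hu⟩), Finset.erase_right_comm]
  have h2 : (Y.erase w).erase u = Z.erase w := Finset.erase_right_comm
  rw [Finset.sum_congr rfl h1, Finset.sum_add_distrib, klaw B hs Z w hwZ, Finset.sum_comm,
    FF_rec B hs (Y.erase w) u (mem_erase.mpr ⟨huw, hu⟩), h2]
  have h3 : ∑ x, ∑ v ∈ Z.erase w, B u x * (FF B (Z.erase v) w + FFF B (Z.erase v) x w) =
      ∑ x, B u x * FF B (Z.erase w) x := by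
    refine Finset.sum_congr rfl fun x _ => ?_
    rw [← Finset.mul_sum, Finset.sum_add_distrib, law2 B hs Z w hwZ, zero_add]
    congr 1
    by_cases hxw : x = w
    · subst hxw
      have h5 : ∑ v ∈ Z.erase x, FFF B (Z.erase v) x x = ∑ v ∈ Z.erase x, FF B (Z.erase v) x :=
        Finset.sum_congr rfl fun v _ => FFF_diag B _ x
      rw [FF_out B _ x (notMem_erase x Z), h5, law2 B hs Z x hwZ]
    · by_cases hx : x ∈ Z
      · have hx' : x ∈ Z.erase w := mem_erase.mpr ⟨hxw, hx⟩
        have h4 : (Z.erase w).erase x = (Z.erase x).erase w := Finset.erase_right_comm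
        rw [← Finset.add_sum_erase (Z.erase w) _ hx', FFF_out B (Z.erase x) x w (notMem_erase x Z),
          h4, ih Z.card (by rw [← hn]; exact Finset.card_erase_lt_of_mem hu) Z x w hx hwZ hxw rfl]
        have := zadd (FF B (Z.erase x) w)
        linear_combination this
      · have h5 : ∑ v ∈ Z.erase w, FFF B (Z.erase v) x w = ∑ v ∈ Z.erase w, FF B (Z.erase v) w :=
          Finset.sum_congr rfl fun v _ => FFF_out B _ x w (fun h => hx (mem_of_mem_erase h))
        rw [FF_out B _ x (fun h => hx (mem_of_mem_erase h)), h5, law2 B hs Z w hwZ]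
  rw [h3]
  ring

include hs in
/-- LAW3 -/
theorem law3 (Y : Finset V) (u w : V) (hu : u ∈ Y) (hw : w ∈ Y) (huw : u ≠ w) :
    ∑ v ∈ (Y.erase u).erase w,
      (FFF B (Y.erase v) u w + FF B (Y.erase v) u + FF B (Y.erase v) w) = 0 := by
  rw [Finset.sum_add_distrib, Finset.sum_add_distrib, fl B hs Y u w hu hw huw]
  have h1 := law2 B hs Y u hu
  have h2 := law2 B hs Y w hw
  rw [← Finset.add_sum_erase (Y.erase u) _ (mem_erase.mpr ⟨huw.symm, hw⟩)] at h1
  rw [← Finset.add_sum_erase (Y.erase w) _ (mem_erase.mpr ⟨huw, hu⟩), Finset.erase_right_comm] at h2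
  linear_combination h1 + h2

end law

end Pool.THA
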