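import Pool.Agent.THA.Comb

/-!
THEOREM A (MP_7b7176_co): an odd set of letters such that, after deleting any letter `v`, the only
structures are the constant ones and the ones with two given classes, has five letters.
-/

set_option autoImplicit false
set_option linter.unusedSectionVars false

namespace Pool.THA

open Finset

section main

variable {X : Type} [Fintype X] [DecidableEq X] (I : X → X → ZMod 2)

open Classical in
/-- The number of structures with `f r = (1, 0)`, `f u = (0, 1)`. -/
noncomputable def N2 (S : Finset X) (r u : X) : ZMod 2 :=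
  ((univ.filter (fun p : (X → Col) × Col => IsStr I S p.1 p.2 ∧ p.1 r = (1, 0) ∧
    p.1 u = (0, 1))).card : ZMod 2)

open Classical in
/-- The number of structures with `f r = (1, 0)`, `f u = f w = (0, 1)`. -/
noncomputable def N3 (S : Finset X) (r u w : X) : ZMod 2 :=
  ((univ.filter (fun p : (X → Col) × Col => IsStr I S p.1 p.2 ∧ p.1 r = (1, 0) ∧
    p.1 u = (0, 1) ∧ p.1 w = (0, 1))).card : ZMod 2)

theorem col_aux (x : Col) (hx : x ≠ 0) : 1 + x.1 = if x = (0, 1) then 1 else 0 := by
  revert x; decide

variable (hs : ∀ x y, I x y = I y x) (h0 : ∀ x, I x x = 0)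

include hs h0 in
theorem N2_eq (S : Finset X) (r u : X) (hr : r ∈ S) (hu : u ∈ S) (hru : r ≠ u) :
    N2 I S r u = FF (Br I r) (S.erase r) u := by
  classical
  have h1 := str_sum I S r hr (fun a => 1 + a u) (fun a a' h => by rw [h u hru.symm]) hs h0
  unfold FF F1
  rw [← h1]
  unfold N2
  rw [Finset.card_eq_sum_ones, Nat.cast_sum]
  have h2 : univ.filter (fun p : (X → Col) × Col => IsStr I S p.1 p.2 ∧ p.1 r = (1, 0) ∧
      p.1 u = (0, 1)) = (univ.filter (fun p : (X → Col) × Col => IsStr I S p.1 p.2 ∧
        p.1 r = (1, 0))).filter (fun p => p.1 u = (0, 1)) := by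
    rw [Finset.filter_filter]
    exact Finset.filter_congr fun p _ => ⟨fun h => ⟨⟨h.1, h.2.1⟩, h.2.2⟩, fun h => ⟨h.1.1, h.1.2, h.2⟩⟩
  rw [h2, Finset.sum_filter]
  refine Finset.sum_congr rfl fun p hp => ?_
  simp only [mem_filter, mem_univ, true_and] at hp
  rw [col_aux (p.1 u) ((hp.1.supp u).mp hu)]
  push_cast
  rfl

include hs h0 in
theorem N3_eq (S : Finset X) (r u w : X) (hr : r ∈ S) (hu : u ∈ S) (hw : w ∈ S) (hru : r ≠ u)
    (hrw : r ≠ w) : N3 I S r u w = FFF (Br I r) (S.erase r) u w := by
  classical
  have h1 := str_sum I S r hr (fun a => (1 + a u) * (1 + a w))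
    (fun a a' h => by rw [h u hru.symm, h w hrw.symm]) hs h0
  unfold FFF F2
  rw [← h1]
  unfold N3
  rw [Finset.card_eq_sum_ones, Nat.cast_sum]
  have h2 : univ.filter (fun p : (X → Col) × Col => IsStr I S p.1 p.2 ∧ p.1 r = (1, 0) ∧
      p.1 u = (0, 1) ∧ p.1 w = (0, 1)) = (univ.filter (fun p : (X → Col) × Col => IsStr I S p.1 p.2 ∧
        p.1 r = (1, 0))).filter (fun p => p.1 u = (0, 1) ∧ p.1 w = (0, 1)) := by
    rw [Finset.filter_filter]
    exact Finset.filter_congr fun p _ => ⟨fun h => ⟨⟨h.1, h.2.1⟩, h.2.2⟩, fun h => ⟨h.1.1, h.1.2, h.2⟩⟩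
  rw [h2, Finset.sum_filter]
  refine Finset.sum_congr rfl fun p hp => ?_
  simp only [mem_filter, mem_univ, true_and] at hp
  rw [col_aux (p.1 u) ((hp.1.supp u).mp hu), col_aux (p.1 w) ((hp.1.supp w).mp hw), ite_and_mul]
  push_cast
  rfl

include hs h0 in
/-- LAW2 for structures. -/
theorem LAW2 (r u : X) (hru : r ≠ u) :
    ∑ v ∈ (univ.erase r).erase u, N2 I (univ.erase v) r u = 0 := by
  rw [← law2 (Br I r) (Br_symm I hs r) (univ.erase r) u (mem_erase.mpr ⟨hru.symm, mem_univ u⟩)]
  refine Finset.sum_congr rfl fun v hv => ?_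
  simp only [mem_erase, mem_univ, and_true] at hv
  rw [N2_eq I hs h0 _ r u (mem_erase.mpr ⟨hv.2.symm, mem_univ r⟩)
    (mem_erase.mpr ⟨hv.1.symm, mem_univ u⟩) hru, Finset.erase_right_comm]

include hs h0 in
/-- LAW3 for structures. -/
theorem LAW3 (r u w : X) (hru : r ≠ u) (hrw : r ≠ w) (huw : u ≠ w) :
    ∑ v ∈ ((univ.erase r).erase u).erase w, (N3 I (univ.erase v) r u w +
      N2 I (univ.erase v) r u + N2 I (univ.erase v) r w) = 0 := by
  rw [← law3 (Br I r) (Br_symm I hs r) (univ.erase r) u w (mem_erase.mpr ⟨hru.symm, mem_univ u⟩)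
    (mem_erase.mpr ⟨hrw.symm, mem_univ w⟩) huw]
  refine Finset.sum_congr rfl fun v hv => ?_
  simp only [mem_erase, mem_univ, and_true] at hv
  have hr' : r ∈ univ.erase v := mem_erase.mpr ⟨hv.2.2.symm, mem_univ r⟩
  have hu' : u ∈ univ.erase v := mem_erase.mpr ⟨hv.2.1.symm, mem_univ u⟩
  have hw' : w ∈ univ.erase v := mem_erase.mpr ⟨hv.1.symm, mem_univ w⟩
  rw [N3_eq I hs h0 _ r u w hr' hu' hw' hru hrw, N2_eq I hs h0 _ r u hr' hu' hru,
    N2_eq I hs h0 _ r w hr' hw' hrw, Finset.erase_right_comm]

/-- Exchange of the two coordinates. -/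
theorem IsStr.swap {S : Finset X} {f : X → Col} {c : Col} (h : IsStr I S f c) :
    IsStr I S (fun x => (f x).swap) c.swap := by
  have hsI : ∀ x, sI I (fun x => (f x).swap) x = (sI I f x).swap := by
    intro x
    refine Prod.ext ?_ ?_
    · rw [sI_fst, Prod.fst_swap, sI_snd]; rfl
    · rw [sI_snd, Prod.snd_swap, sI_fst]; rfl
  refine ⟨?_, ?_, ?_⟩
  · intro x
    rw [h.supp x]
    generalize f x = y
    revert y; decide
  · have := h.sum
    refine Prod.ext ?_ ?_
    · rw [Prod.fst_sum]
      have h1 := congrArg Prod.snd this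
      rw [Prod.snd_sum] at h1
      exact h1
    · rw [Prod.snd_sum]
      have h1 := congrArg Prod.fst this
      rw [Prod.fst_sum] at h1
      exact h1
  · intro x hx
    rw [hsI]
    have := h.eq x hx
    clear h
    generalize sI I f x = s at this ⊢
    generalize f x = y at this ⊢
    revert this
    revert c s y
    decide

theorem uc_aux1 : ∀ c c' s : Col, (c + s = 0 ∨ c + s = (1, 0)) →
    (c' + s = 0 ∨ c' + s = (1, 0)) → c.2 = c'.2 := by
  decide

theorem uc_aux2 : ∀ c c' s : Col, (c + s = 0 ∨ c + s = (0, 1)) →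
    (c' + s = 0 ∨ c' + s = (0, 1)) → c.1 = c'.1 := by
  decide

/-- `c` is unique if two colours occur. -/
theorem IsStr.unique_c {S : Finset X} {f : X → Col} {c c' : Col} (h : IsStr I S f c)
    (h' : IsStr I S f c') (r u : X) (hr : r ∈ S) (hu : u ∈ S) (fr : f r = (1, 0))
    (fu : f u = (0, 1)) : c = c' := by
  have a1 := h.eq r hr
  have a2 := h'.eq r hr
  have a3 := h.eq u hu
  have a4 := h'.eq u hu
  rw [fr] at a1 a2
  rw [fu] at a3 a4
  exact Prod.ext (uc_aux2 c c' _ a3 a4) (uc_aux1 c c' _ a1 a2)

variable (k : X → X → Bool)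

/-- The colouring with the two classes of `v`. -/
def two (v x : X) : Col := if x = v then 0 else if k v x = true then (1, 0) else (0, 1)

/-- Hypothesis (H) of Theorem A. -/
structure HypH : Prop where
  only : ∀ v f c, IsStr I (univ.erase v) f c → ∀ x y, x ≠ v → y ≠ v → k v x = k v y → f x = f y
  ex : ∀ v, ∃ c, IsStr I (univ.erase v) (two k v) c
  ne : ∀ v b, ∃ x, x ≠ v ∧ k v x = b

variable {I k}

/-- There is a structure with the classes of `v` and the colours `(1, 0)` at `r`, `(0, 1)` at `u`. -/
theorem HypH.ex' (H : HypH I k) (v r u : X) (hr : r ≠ v) (hu : u ≠ v) (h : k v r ≠ k v u) :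
    ∃ f c, IsStr I (univ.erase v) f c ∧ f r = (1, 0) ∧ f u = (0, 1) := by
  obtain ⟨c, hc⟩ := H.ex v
  rcases Bool.eq_false_or_eq_true (k v r) with h1 | h1
  · have h2 : k v u = false := by
      rw [h1] at h
      cases hk : k v u
      · rfl
      · rw [hk] at h; exact absurd rfl h
    refine ⟨_, _, hc, ?_, ?_⟩
    · unfold two; rw [if_neg hr, if_pos h1]
    · unfold two; rw [if_neg hu, if_neg (by rw [h2]; decide)]
  · have h2 : k v u = true := by
      rw [h1] at h
      cases hk : k v u
      · rw [hk] at h; exact absurd rfl h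
      · rfl
    refine ⟨_, _, hc.swap, ?_, ?_⟩
    · unfold two; rw [if_neg hr, if_neg (by rw [h1]; decide)]; rfl
    · unfold two; rw [if_neg hu, if_pos h2]; rfl

theorem HypH.N2_val (H : HypH I k) (v r u : X) (hr : r ≠ v) (hu : u ≠ v) :
    N2 I (univ.erase v) r u = if k v r = k v u then 0 else 1 := by
  classical
  unfold N2
  by_cases h : k v r = k v u
  · rw [if_pos h, Finset.filter_false_of_mem, Finset.card_empty, Nat.cast_zero]
    rintro p _ ⟨h1, h2, h3⟩
    have := H.only v p.1 p.2 h1 r u hr hu h
    rw [h2, h3] at this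
    exact absurd this (by decide)
  · rw [if_neg h]
    obtain ⟨f, c, h1, h2, h3⟩ := H.ex' v r u hr hu h
    have hu' : u ∈ univ.erase v := mem_erase.mpr ⟨hu, mem_univ u⟩
    have hr' : r ∈ univ.erase v := mem_erase.mpr ⟨hr, mem_univ r⟩
    have : univ.filter (fun p : (X → Col) × Col => IsStr I (univ.erase v) p.1 p.2 ∧ p.1 r = (1, 0) ∧
        p.1 u = (0, 1)) = {(f, c)} := by
      ext p
      simp only [mem_filter, mem_univ, true_and, mem_singleton]
      constructor
      · rintro ⟨g1, g2, g3⟩
        have hf : p.1 = f := by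
          funext x
          by_cases hx : x = v
          · have e1 : p.1 x = 0 := by
              by_contra h'
              exact notMem_erase v univ (hx ▸ (g1.supp x).mpr h')
            have e2 : f x = 0 := by
              by_contra h'
              exact notMem_erase v univ (hx ▸ (h1.supp x).mpr h')
            rw [e1, e2]
          · by_cases hxr : k v x = k v r
            · rw [H.only v _ _ g1 x r hx hr hxr, H.only v _ _ h1 x r hx hr hxr, g2, h2]
            · have hxu : k v x = k v u := by
                cases a : k v x <;> cases b : k v r <;> cases c : k v u <;> simp_all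
              rw [H.only v _ _ g1 x u hx hu hxu, H.only v _ _ h1 x u hx hu hxu, g3, h3]
        refine Prod.ext hf ?_
        rw [hf] at g1
        exact g1.unique_c I h1 r u hr' hu' h2 h3
      · rintro rfl
        exact ⟨h1, h2, h3⟩
    rw [this, Finset.card_singleton, Nat.cast_one]

theorem HypH.N3_val (H : HypH I k) (v r u w : X) (hr : r ≠ v) (hu : u ≠ v) (hw : w ≠ v) :
    N3 I (univ.erase v) r u w = if k v r = k v u ∨ k v r = k v w then 0 else 1 := by
  classical
  by_cases h : k v r = k v u ∨ k v r = k v w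
  · rw [if_pos h]
    unfold N3
    rw [Finset.filter_false_of_mem, Finset.card_empty, Nat.cast_zero]
    rintro p _ ⟨h1, h2, h3, h4⟩
    rcases h with h | h
    · have := H.only v p.1 p.2 h1 r u hr hu h
      rw [h2, h3] at this
      exact absurd this (by decide)
    · have := H.only v p.1 p.2 h1 r w hr hw h
      rw [h2, h4] at this
      exact absurd this (by decide)
  · rw [if_neg h]
    push Not at h
    have huw : k v u = k v w := by
      obtain ⟨h1, h2⟩ := h
      cases a : k v w <;> cases b : k v r <;> cases c : k v u <;> simp_all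
    have : N3 I (univ.erase v) r u w = N2 I (univ.erase v) r u := by
      unfold N3 N2
      congr 2
      refine Finset.filter_congr fun p _ => ?_
      constructor
      · rintro ⟨h1, h2, h3, _⟩; exact ⟨h1, h2, h3⟩
      · rintro ⟨h1, h2, h3⟩
        exact ⟨h1, h2, h3, by rw [← H.only v p.1 p.2 h1 u w hu hw huw, h3]⟩
    rw [this, H.N2_val v r u hr hu, if_neg h.1]

/-- THEOREM A. -/
theorem theoremA (hs : ∀ x y, I x y = I y x) (h0 : ∀ x, I x x = 0)
    (hn : Odd (Fintype.card X)) (H : HypH I k) : Fintype.card X = 5 := by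
  have hn' : ((Fintype.card X : ℕ) : ZMod 2) = 1 := (cast_odd _).mp hn
  refine comb k hn ?_ H.ne ?_ ?_
  · -- even classes
    intro v b
    obtain ⟨c, hc⟩ := H.ex v
    have h := hc.sum
    have hf : ∀ x, (two k v x).1 = if x ≠ v ∧ k v x = true then 1 else 0 := by
      intro x
      unfold two
      by_cases hx : x = v
      · simp [hx]
      · by_cases hk : k v x = true <;> simp [hx, hk]
    have hg : ∀ x, (two k v x).2 = if x ≠ v ∧ k v x = false then 1 else 0 := by
      intro x
      unfold two
      by_cases hx : x = v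
      · simp [hx]
      · by_cases hk : k v x = true <;> simp [hx, hk]
    have h1 : ∑ x, (two k v x).1 = 0 := by
      rw [← Prod.fst_sum, h]; rfl
    have h2 : ∑ x, (two k v x).2 = 0 := by
      rw [← Prod.snd_sum, h]; rfl
    rw [cast_even]
    cases b
    · simp_rw [hg] at h2
      rw [Finset.sum_boole] at h2
      exact h2
    · simp_rw [hf] at h1
      rw [Finset.sum_boole] at h1
      exact h1
  · -- L2
    intro r u hru
    have h := LAW2 I hs h0 r u hru
    have h1 : ∀ v ∈ (univ.erase r).erase u, N2 I (univ.erase v) r u =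
        1 + if k v r = k v u then 1 else 0 := by
      intro v hv
      simp only [mem_erase, mem_univ, and_true] at hv
      rw [H.N2_val v r u hv.2.symm hv.1.symm]
      split_ifs <;> decide
    rw [Finset.sum_congr rfl h1, Finset.sum_add_distrib, Finset.sum_boole, Finset.sum_const,
      nsmul_eq_mul, mul_one] at h
    have hc : ((((univ : Finset X).erase r).erase u).card : ZMod 2) = 1 := by
      have e1 : (((univ : Finset X).erase r).erase u).card + 1 + 1 = Fintype.card X := by
        rw [Finset.card_erase_add_one (mem_erase.mpr ⟨hru.symm, mem_univ u⟩),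
          Finset.card_erase_add_one (mem_univ r), Finset.card_univ]
      have e2 := congrArg (fun m : ℕ => (m : ZMod 2)) e1
      simp only [Nat.cast_add, Nat.cast_one] at e2
      rw [hn'] at e2
      have := zadd (1 : ZMod 2)
      linear_combination e2 - this
    rw [hc] at h
    rw [cast_odd]
    have e3 : univ.filter (fun v => v ≠ r ∧ v ≠ u ∧ k v r = k v u) =
        ((univ.erase r).erase u).filter (fun v => k v r = k v u) := by
      ext v
      simp only [mem_filter, mem_univ, true_and, mem_erase, and_true]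
      exact ⟨fun h => ⟨⟨h.2.1, h.1⟩, h.2.2⟩, fun h => ⟨h.1.2, h.1.1, h.2⟩⟩
    rw [e3]
    have := zadd (1 : ZMod 2)
    linear_combination h - this
  · -- L3
    intro r u w hru hrw huw
    have h := LAW3 I hs h0 r u w hru hrw huw
    have h1 : ∀ v ∈ ((univ.erase r).erase u).erase w, N3 I (univ.erase v) r u w +
        N2 I (univ.erase v) r u + N2 I (univ.erase v) r w =
        1 + if k v r = k v u ∧ k v r = k v w then 1 else 0 := by
      intro v hv
      simp only [mem_erase, mem_univ, and_true] at hv
      rw [H.N2_val v r u hv.2.2.symm hv.2.1.symm, H.N2_val v r w hv.2.2.symm hv.1.symm,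
        H.N3_val v r u w hv.2.2.symm hv.2.1.symm hv.1.symm]
      by_cases a1 : k v r = k v u
      · by_cases a2 : k v r = k v w
        · rw [if_pos (Or.inl a1), if_pos a1, if_pos a2, if_pos ⟨a1, a2⟩]; decide
        · rw [if_pos (Or.inl a1), if_pos a1, if_neg a2, if_neg (fun h => a2 h.2)]; decide
      · by_cases a2 : k v r = k v w
        · rw [if_pos (Or.inr a2), if_neg a1, if_pos a2, if_neg (fun h => a1 h.1)]; decide
        · rw [if_neg (fun h => h.elim a1 a2), if_neg a1, if_neg a2, if_neg (fun h => a1 h.1)]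
          decide
    rw [Finset.sum_congr rfl h1, Finset.sum_add_distrib, Finset.sum_boole, Finset.sum_const,
      nsmul_eq_mul, mul_one] at h
    have hwm : w ∈ ((univ : Finset X).erase r).erase u := by
      simp only [mem_erase, mem_univ, and_true]
      exact ⟨huw.symm, hrw.symm⟩
    have hc : (((((univ : Finset X).erase r).erase u).erase w).card : ZMod 2) = 0 := by
      have e1 : ((((univ : Finset X).erase r).erase u).erase w).card + 1 + 1 + 1 =
          Fintype.card X := by
        rw [Finset.card_erase_add_one hwm,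
          Finset.card_erase_add_one (mem_erase.mpr ⟨hru.symm, mem_univ u⟩),
          Finset.card_erase_add_one (mem_univ r), Finset.card_univ]
      have e2 := congrArg (fun m : ℕ => (m : ZMod 2)) e1
      simp only [Nat.cast_add, Nat.cast_one] at e2
      rw [hn'] at e2
      have := zadd (1 : ZMod 2)
      linear_combination e2 - this
    rw [hc, zero_add] at h
    rw [cast_even]
    have e3 : univ.filter (fun v => v ≠ r ∧ v ≠ u ∧ v ≠ w ∧ k v r = k v u ∧ k v r = k v w) =
        (((univ.erase r).erase u).erase w).filter (fun v => k v r = k v u ∧ k v r = k v w) := by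
      ext v
      simp only [mem_filter, mem_univ, true_and, mem_erase, and_true]
      exact ⟨fun h => ⟨⟨h.2.2.1, h.2.1, h.1⟩, h.2.2.2⟩, fun h => ⟨h.1.2.2, h.1.2.1, h.1.1, h.2⟩⟩
    rw [e3]
    exact h

end main

end Pool.THA
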