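import Pool.Agent.THA.Law

/-!
Structures (colourings of the letters by the nonzero vectors of `F_2 ^ 2`) of a symmetric matrix
`I` (inversion matrix) and the laws LAW2, LAW3 for them.
-/

set_option autoImplicit false
set_option linter.unusedSectionVars false

namespace Pool.THA

open Finset

/-- Colours: vectors of `F_2 ^ 2`. -/
abbrev Col := ZMod 2 × ZMod 2

section str

variable {X : Type} [Fintype X] [DecidableEq X] (I : X → X → ZMod 2)

/-- `∑ y, I x y f y` -/
def sI (f : X → Col) (x : X) : Col := ∑ y, I x y • f y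

/-- `(f, c)` is a structure on `S`. -/
structure IsStr (S : Finset X) (f : X → Col) (c : Col) : Prop where
  supp : ∀ x, x ∈ S ↔ f x ≠ 0
  sum : ∑ x, f x = 0
  eq : ∀ x ∈ S, c + sI I f x = 0 ∨ c + sI I f x = f x

/-- The matrix of the graph with the isolated vertex `r`. -/
def Br (r : X) (x y : X) : ZMod 2 := I x y + I x r + I y r

theorem cadd (x : Col) : x + x = 0 := by
  revert x; decide

theorem sI_fst (f : X → Col) (x : X) : (sI I f x).1 = ∑ y, I x y * (f y).1 := by
  unfold sI
  rw [Prod.fst_sum]
  rfl

theorem sI_snd (f : X → Col) (x : X) : (sI I f x).2 = ∑ y, I x y * (f y).2 := by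
  unfold sI
  rw [Prod.snd_sum]
  rfl

variable (hs : ∀ x y, I x y = I y x) (h0 : ∀ x, I x x = 0)

include hs in
theorem Br_symm (r : X) (x y : X) : Br I r x y = Br I r y x := by
  unfold Br
  rw [hs x y]; ring

include h0 in
theorem Br_r (r : X) (x : X) : Br I r x r = 0 := by
  unfold Br
  rw [h0 r, add_zero]
  exact zadd _

include hs h0 in
/-- The product with the matrix `Br`. -/
theorem mv_Br (r x : X) (a a' : X → ZMod 2) (h : ∀ y, y ≠ r → a' y = a y) (hsum : ∑ y, a y = 0) :
    mv (Br I r) a' x = ∑ y, I x y * a y + ∑ y, I r y * a y := by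
  have h1 : mv (Br I r) a' x = ∑ y, Br I r x y * a y := by
    unfold mv
    refine Finset.sum_congr rfl fun y _ => ?_
    by_cases hy : y = r
    · rw [hy, Br_r I h0, zero_mul, zero_mul]
    · rw [h y hy]
  rw [h1]
  unfold Br
  have h2 : ∀ y, (I x y + I x r + I y r) * a y = I x y * a y + I x r * a y + I r y * a y := by
    intro y; rw [hs y r]; ring
  simp_rw [h2]
  rw [Finset.sum_add_distrib, Finset.sum_add_distrib, ← Finset.mul_sum, hsum, mul_zero, add_zero]

theorem vec_eq (a b p q : ZMod 2) (h : ¬ (a = 0 ∧ b = 0)) :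
    a * q + b * p = 0 ↔ ((p, q) : Col) = 0 ∨ ((p, q) : Col) = (a, b) := by
  revert a b p q; decide

open Classical in
/-- The sum of `psi` over the structures with `f r = (1, 0)`. -/
theorem str_sum (S : Finset X) (r : X) (hr : r ∈ S) (psi : (X → ZMod 2) → ZMod 2)
    (hpsi : ∀ a a' : X → ZMod 2, (∀ y, y ≠ r → a y = a' y) → psi a = psi a')
    (hs : ∀ x y, I x y = I y x) (h0 : ∀ x, I x x = 0) :
    ∑ p ∈ univ.filter (fun p : (X → Col) × Col => IsStr I S p.1 p.2 ∧ p.1 r = (1, 0)),
      psi (fun x => (p.1 x).1) =
    GG (Br I r) 0 (S.erase r) psi + GG (Br I r) 1 (S.erase r) psi := by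
  -- the right hand side as a sum over triples
  have e1 : ∀ c : ZMod 2, GG (Br I r) c (S.erase r) psi =
      ∑ p ∈ univ.filter (fun p : (X → ZMod 2) × (X → ZMod 2) =>
        ∑ x, p.1 x = 1 ∧ St (S.erase r) p.1 p.2 ∧ ∑ x, p.2 x = 0 ∧
          ∀ x, ee (Br I r) p.1 p.2 c x = 0), psi p.1 := by
    intro c
    unfold GG
    rw [Finset.sum_filter, Finset.sum_filter, ← Finset.univ_product_univ, Finset.sum_product]
    refine Finset.sum_congr rfl fun a _ => ?_
    by_cases ha : ∑ x, a x = 1
    · rw [if_pos ha]
      unfold Phi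
      rw [Finset.card_eq_sum_ones, Nat.cast_sum, Finset.mul_sum, Finset.sum_filter]
      refine Finset.sum_congr rfl fun b _ => ?_
      simp only [ha, true_and]
      push_cast
      rw [mul_one]
    · rw [if_neg ha]
      symm
      apply Finset.sum_eq_zero
      intro b _
      rw [if_neg]
      rintro ⟨h, _⟩
      exact ha h
  have e2 : GG (Br I r) 0 (S.erase r) psi + GG (Br I r) 1 (S.erase r) psi =
      ∑ p ∈ univ.filter (fun p : ZMod 2 × (X → ZMod 2) × (X → ZMod 2) =>
        ∑ x, p.2.1 x = 1 ∧ St (S.erase r) p.2.1 p.2.2 ∧ ∑ x, p.2.2 x = 0 ∧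
          ∀ x, ee (Br I r) p.2.1 p.2.2 p.1 x = 0), psi p.2.1 := by
    rw [Finset.sum_filter (s := (univ : Finset (ZMod 2 × (X → ZMod 2) × (X → ZMod 2)))),
      ← Finset.univ_product_univ, Finset.sum_product]
    have : (univ : Finset (ZMod 2)) = {0, 1} := rfl
    rw [this, Finset.sum_pair (by decide), e1 0, e1 1, Finset.sum_filter, Finset.sum_filter]
  rw [e2]
  symm
  refine Finset.sum_nbij'
    (fun p => (fun x => if x = r then (1, 0) else (p.2.1 x, p.2.2 x),
      (p.1, 0) + sI I (fun x => if x = r then (1, 0) else (p.2.1 x, p.2.2 x)) r))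
    (fun p => ((p.2 + sI I p.1 r).1, (fun x => if x = r then 0 else (p.1 x).1),
      fun x => (p.1 x).2)) ?_ ?_ ?_ ?_ ?_
  · -- maps into the structures
    rintro ⟨c, a, b⟩ hp
    simp only [mem_filter, mem_univ, true_and] at hp ⊢
    obtain ⟨ha, hst, hb, he⟩ := hp
    have har : a r = 0 ∧ b r = 0 := by
      by_contra h
      exact notMem_erase r S ((hst r).mpr h)
    set f : X → Col := fun x => if x = r then (1, 0) else (a x, b x) with hf
    have hfr : f r = (1, 0) := by rw [hf]; simp
    have hfx : ∀ x, x ≠ r → f x = (a x, b x) := by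
      intro x hx; rw [hf]; simp [hx]
    have hf2 : ∀ x, (f x).2 = b x := by
      intro x
      by_cases hx : x = r
      · rw [hx, hfr, har.2]
      · rw [hfx x hx]
    have hsum1 : ∑ x, (f x).1 = 0 := by
      rw [← Finset.add_sum_erase univ _ (mem_univ r)] at ha ⊢
      rw [har.1, zero_add] at ha
      rw [Finset.sum_congr rfl (fun x hx => by rw [hfx x (mem_erase.mp hx).1] :
        ∀ x ∈ univ.erase r, (f x).1 = a x), ha, hfr]
      decide
    have hsum2 : ∑ x, (f x).2 = 0 := by
      rw [← hb]; exact Finset.sum_congr rfl fun x _ => hf2 x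
    have m1 : ∀ x, mv (Br I r) a x = (sI I f x).1 + (sI I f r).1 := by
      intro x
      rw [sI_fst, sI_fst]
      exact mv_Br I hs h0 r x _ a (fun y hy => by rw [hfx y hy]) hsum1
    have m2 : ∀ x, mv (Br I r) b x = (sI I f x).2 + (sI I f r).2 := by
      intro x
      rw [sI_snd, sI_snd]
      exact mv_Br I hs h0 r x _ b (fun y _ => (hf2 y).symm) hsum2
    refine ⟨⟨?_, ?_, ?_⟩, if_pos trivial⟩
    · intro x
      change x ∈ S ↔ f x ≠ 0
      by_cases hx : x = r
      · subst hx
        rw [hfr]
        exact ⟨fun _ => by decide, fun _ => hr⟩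
      · rw [hfx x hx]
        have := hst x
        rw [mem_erase] at this
        constructor
        · intro h h'
          exact this.mp ⟨hx, h⟩ ⟨congrArg Prod.fst h', congrArg Prod.snd h'⟩
        · intro h
          exact (this.mpr (fun h' => h (Prod.ext h'.1 h'.2))).2
    · change ∑ x, f x = 0
      refine Prod.ext ?_ ?_
      · rw [Prod.fst_sum]; exact hsum1
      · rw [Prod.snd_sum]; exact hsum2
    · intro x hx
      change (c, 0) + sI I f r + sI I f x = 0 ∨ (c, 0) + sI I f r + sI I f x = f x
      by_cases hxr : x = r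
      · subst hxr
        rw [add_assoc, cadd, add_zero, hfr]
        rcases z2 c with h | h <;> rw [h] <;> simp
      · have hne : ¬ (a x = 0 ∧ b x = 0) := (hst x).mp (mem_erase.mpr ⟨hxr, hx⟩)
        have h1 := he x
        unfold ee at h1
        rw [vec_eq _ _ _ _ hne, m1, m2] at h1
        rw [hfx x hxr]
        have h2 : (c, 0) + sI I f r + sI I f x =
            (c + ((sI I f x).1 + (sI I f r).1), (sI I f x).2 + (sI I f r).2) := by
          refine Prod.ext ?_ ?_
          · simp only [Prod.fst_add]; ring
          · simp only [Prod.snd_add]; ring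
        rw [h2]; exact h1
  · -- back
    rintro ⟨f, c⟩ hp
    simp only [mem_filter, mem_univ, true_and] at hp ⊢
    obtain ⟨⟨hsu, hsum, heq⟩, hfr⟩ := hp
    have hsum1 : ∑ x, (f x).1 = 0 := by
      rw [← Prod.fst_sum, hsum]; rfl
    have hsum2 : ∑ x, (f x).2 = 0 := by
      rw [← Prod.snd_sum, hsum]; rfl
    set a : X → ZMod 2 := fun x => if x = r then 0 else (f x).1 with ha
    have har : a r = 0 := by rw [ha]; simp
    have hax : ∀ x, x ≠ r → a x = (f x).1 := by intro x hx; rw [ha]; simp [hx]
    have m1 : ∀ x, mv (Br I r) a x = (sI I f x).1 + (sI I f r).1 := by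
      intro x
      rw [sI_fst, sI_fst]
      exact mv_Br I hs h0 r x _ a hax hsum1
    have m2 : ∀ x, mv (Br I r) (fun x => (f x).2) x = (sI I f x).2 + (sI I f r).2 := by
      intro x
      rw [sI_snd, sI_snd]
      exact mv_Br I hs h0 r x _ _ (fun y _ => rfl) hsum2
    have hk : (c + sI I f r).2 = 0 := by
      rcases heq r hr with h | h
      · rw [h]; rfl
      · rw [h, hfr]
    refine ⟨?_, ?_, hsum2, ?_⟩
    · change ∑ x, a x = 1
      rw [← Finset.add_sum_erase univ _ (mem_univ r)] at hsum1 ⊢
      rw [har, zero_add, Finset.sum_congr rfl (fun x hx => hax x (mem_erase.mp hx).1)]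
      rw [hfr] at hsum1
      have h1 := zadd (1 : ZMod 2)
      have h2 : (1 : ZMod 2) + ∑ x ∈ univ.erase r, (f x).1 = 0 := hsum1
      linear_combination h2 - h1
    · intro x
      change x ∈ S.erase r ↔ ¬ (a x = 0 ∧ (f x).2 = 0)
      by_cases hx : x = r
      · subst hx
        constructor
        · intro h; exact absurd h (notMem_erase x S)
        · intro h
          exact absurd ⟨har, by rw [hfr]⟩ h
      · rw [mem_erase, hax x hx]
        constructor
        · rintro ⟨_, h⟩ h'
          exact (hsu x).mp h (Prod.ext h'.1 h'.2)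
        · intro h
          refine ⟨hx, (hsu x).mpr fun h' => h ?_⟩
          rw [h']; exact ⟨rfl, rfl⟩
    · intro x
      change a x * mv (Br I r) (fun x => (f x).2) x +
        (f x).2 * ((c + sI I f r).1 + mv (Br I r) a x) = 0
      by_cases hxr : x = r
      · subst hxr
        rw [har, hfr]; ring
      · by_cases hx : x ∈ S
        · have hne : ¬ ((f x).1 = 0 ∧ (f x).2 = 0) := fun h' => (hsu x).mp hx (Prod.ext h'.1 h'.2)
          rw [hax x hxr, vec_eq _ _ _ _ hne, m1, m2]
          have h2 : c + sI I f x =
              ((c + sI I f r).1 + ((sI I f x).1 + (sI I f r).1), (sI I f x).2 + (sI I f r).2) := by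
            refine Prod.ext ?_ ?_
            · simp only [Prod.fst_add]
              have := zadd (sI I f r).1
              linear_combination (-1 : ZMod 2) * this
            · simp only [Prod.snd_add] at hk ⊢
              have := zadd (sI I f r).2
              linear_combination hk - this
          rw [← h2]
          exact heq x hx
        · have : f x = 0 := by
            by_contra h
            exact hx ((hsu x).mpr h)
          rw [hax x hxr, this]; simp
  · rintro ⟨c, a, b⟩ hp
    simp only [mem_filter, mem_univ, true_and] at hp ⊢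
    obtain ⟨ha, hst, hb, he⟩ := hp
    have har : a r = 0 ∧ b r = 0 := by
      by_contra h
      exact notMem_erase r S ((hst r).mpr h)
    refine Prod.ext ?_ (Prod.ext ?_ ?_)
    · simp only
      rw [add_assoc, cadd, add_zero]
    · simp only
      funext x
      by_cases hx : x = r
      · rw [if_pos hx, hx, har.1]
      · rw [if_neg hx, if_neg hx]
    · simp only
      funext x
      by_cases hx : x = r
      · rw [if_pos hx, hx, har.2]
      · rw [if_neg hx]
  · rintro ⟨f, c⟩ hp
    simp only [mem_filter, mem_univ, true_and] at hp ⊢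
    obtain ⟨⟨hsu, hsum, heq⟩, hfr⟩ := hp
    have hf : (fun x => if x = r then ((1, 0) : Col) else
        ((if x = r then 0 else (f x).1), (f x).2)) = f := by
      funext x
      by_cases hx : x = r
      · rw [if_pos hx, hx, hfr]
      · rw [if_neg hx, if_neg hx]
    have hk : (c + sI I f r).2 = 0 := by
      rcases heq r hr with h | h
      · rw [h]; rfl
      · rw [h, hfr]
    refine Prod.ext hf ?_
    simp only
    rw [hf]
    have : (((c + sI I f r).1, 0) : Col) = c + sI I f r := by
      refine Prod.ext rfl ?_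
      rw [hk]
    rw [this, add_assoc, cadd, add_zero]
  · rintro ⟨c, a, b⟩ hp
    simp only
    exact hpsi _ _ fun y hy => by rw [if_neg hy]

end str

end Pool.THA
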